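import Pool.Agent.Helper91.FS.Goals2

/-!
# Project FS, packet PGLX: PGL(2, K) on the projective line
-/

set_option autoImplicit false

namespace Pool.Agent.Helper78.FS

open Pool.Agent.Helper91.FS
open Pool.Agent.Helper47.SR (Grp)
open scoped MatrixGroups

section

variable {K : Type} [Field K] [DecidableEq K]

/-- the matrix -/
noncomputable def mk4 (p q r s : K) (h : p * s - q * r ≠ 0) : GL (Fin 2) K :=
  Matrix.GeneralLinearGroup.mkOfDetNeZero !![p, q; r, s] (by
    rw [Matrix.det_fin_two_of]
    exact h)

theorem mk4_infty (p q r s : K) (h : p * s - q * r ≠ 0) :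
    mk4 p q r s h • (OnePoint.infty : OnePoint K) = if r = 0 then OnePoint.infty else ((p / r : K) : OnePoint K) := by
  rw [OnePoint.smul_infty_eq_ite]
  rfl

theorem mk4_some (p q r s : K) (h : p * s - q * r ≠ 0) (k : K) :
    mk4 p q r s h • (k : OnePoint K) =
      if r * k + s = 0 then OnePoint.infty else (((p * k + q) / (r * k + s) : K) : OnePoint K) := by
  rw [OnePoint.smul_some_eq_ite]
  rfl

theorem base (a b c : OnePoint K) (hab : a ≠ b) (hac : a ≠ c) (hbc : b ≠ c) :
    ∃ g : GL (Fin 2) K, g • (OnePoint.infty : OnePoint K) = a ∧ g • ((0 : K) : OnePoint K) = b ∧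
      g • ((1 : K) : OnePoint K) = c := by
  cases a with
  | infty =>
    cases b with
    | infty => exact absurd rfl hab
    | coe b =>
      cases c with
      | infty => exact absurd rfl hac
      | coe c =>
        have h : c - b ≠ 0 := by
          intro h
          exact hbc (by rw [sub_eq_zero.1 h])
        refine ⟨mk4 (c - b) b 0 1 (by simpa using h), ?_, ?_, ?_⟩
        · rw [mk4_infty]; simp
        · rw [mk4_some]; simp
        · rw [mk4_some]; simp
  | coe a =>
    cases b with
    | infty =>
      cases c with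
      | infty => exact absurd rfl hbc
      | coe c =>
        have h : c - a ≠ 0 := by
          intro h
          exact hac (by rw [sub_eq_zero.1 h])
        refine ⟨mk4 a (c - a) 1 0 (by simpa [sub_eq_zero] using fun h' => h (by rw [h']; ring)), ?_, ?_, ?_⟩
        · rw [mk4_infty]; simp
        · rw [mk4_some]; simp
        · rw [mk4_some]; simp
    | coe b =>
      have hab' : a - b ≠ 0 := by
        intro h
        exact hab (by rw [sub_eq_zero.1 h])
      cases c with
      | infty =>
        refine ⟨mk4 a (-b) 1 (-1) (by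
          intro h
          apply hab'
          linear_combination -h), ?_, ?_, ?_⟩
        · rw [mk4_infty]; simp
        · rw [mk4_some]; simp
        · rw [mk4_some]; simp
      | coe c =>
        have h1 : a - c ≠ 0 := by
          intro h
          exact hac (by rw [sub_eq_zero.1 h])
        have h2 : c - b ≠ 0 := by
          intro h
          exact hbc (by rw [sub_eq_zero.1 h])
        refine ⟨mk4 (a * (c - b)) (b * (a - c)) (c - b) (a - c) (by
          have : a * (c - b) * (a - c) - b * (a - c) * (c - b) = (a - b) * (c - b) * (a - c) := by ring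
          rw [this]
          exact mul_ne_zero (mul_ne_zero hab' h2) h1), ?_, ?_, ?_⟩
        · rw [mk4_infty, if_neg h2, mul_div_assoc, div_self h2, mul_one]
        · rw [mk4_some, mul_zero, mul_zero, zero_add, zero_add, if_neg h1, mul_div_assoc, div_self h1,
            mul_one]
        · have h3 : (c - b) * 1 + (a - c) = a - b := by ring
          rw [mk4_some, h3, if_neg hab']
          congr 1
          field_simp
          ring

theorem fix3 (k : GL (Fin 2) K) (h1 : k • (OnePoint.infty : OnePoint K) = OnePoint.infty)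
    (h2 : k • ((0 : K) : OnePoint K) = ((0 : K) : OnePoint K))
    (h3 : k • ((1 : K) : OnePoint K) = ((1 : K) : OnePoint K)) (x : OnePoint K) : k • x = x := by
  have e10 : k 1 0 = 0 := OnePoint.smul_infty_eq_self_iff.1 h1
  rw [OnePoint.smul_some_eq_ite, e10] at h2 h3
  simp only [mul_zero, zero_add, zero_mul, mul_one] at h2 h3
  have e11 : k 1 1 ≠ 0 := by
    intro h
    rw [if_pos h] at h2
    exact OnePoint.infty_ne_coe _ h2
  rw [if_neg e11] at h2 h3
  rw [OnePoint.coe_eq_coe] at h2 h3
  have e01 : k 0 1 = 0 := by
    rcases div_eq_zero_iff.1 h2 with h | h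
    · exact h
    · exact absurd h e11
  rw [e01, add_zero, div_eq_iff e11, one_mul] at h3
  cases x with
  | infty => exact h1
  | coe t =>
    rw [OnePoint.smul_some_eq_ite, e10, e01, h3]
    simp only [zero_mul, zero_add, add_zero]
    rw [if_neg e11, mul_div_assoc, mul_comm, div_mul_cancel₀ _ e11]

theorem swap2 (k : GL (Fin 2) K) (h1 : k • (OnePoint.infty : OnePoint K) = ((0 : K) : OnePoint K))
    (h2 : k • ((0 : K) : OnePoint K) = OnePoint.infty) (x : OnePoint K) : k • k • x = x := by
  rw [OnePoint.smul_infty_eq_ite] at h1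
  have e10 : k 1 0 ≠ 0 := by
    intro h
    rw [if_pos h] at h1
    exact OnePoint.infty_ne_coe _ h1
  rw [if_neg e10, OnePoint.coe_eq_coe] at h1
  have e00 : k 0 0 = 0 := by
    rcases div_eq_zero_iff.1 h1 with h | h
    · exact h
    · exact absurd h e10
  have e11 : k 1 1 = 0 := by
    rw [OnePoint.smul_some_eq_ite] at h2
    by_contra h
    rw [mul_zero, zero_add, if_neg h] at h2
    exact OnePoint.coe_ne_infty _ h2
  have e01 : k 0 1 ≠ 0 := by
    intro h
    have := k.det_ne_zero
    rw [Matrix.det_fin_two, e00, e11, h] at this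
    simp at this
  have key : ∀ t : K, t ≠ 0 → k • (t : OnePoint K) = ((k 0 1 / (k 1 0 * t) : K) : OnePoint K) := by
    intro t ht
    rw [OnePoint.smul_some_eq_ite, e11, e00, add_zero, zero_mul, zero_add,
      if_neg (mul_ne_zero e10 ht)]
  have hinf : k • (OnePoint.infty : OnePoint K) = ((0 : K) : OnePoint K) := by
    rw [OnePoint.smul_infty_eq_ite, if_neg e10, e00, zero_div]
  cases x with
  | infty => rw [hinf, h2]
  | coe t =>
    by_cases ht : t = 0
    · rw [ht, h2, hinf]
    · rw [key t ht, key _ (div_ne_zero e01 (mul_ne_zero e10 ht)), OnePoint.coe_eq_coe]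
      field_simp

/-- the permutation of a matrix -/
def act {n : ℕ} (e : OnePoint K ≃ Fin n) (g : GL (Fin 2) K) : Equiv.Perm (Fin n) :=
  e.symm.trans ((MulAction.toPerm g).trans e)

theorem act_apply {n : ℕ} (e : OnePoint K ≃ Fin n) (g : GL (Fin 2) K) (x : OnePoint K) :
    act e g (e x) = e (g • x) := by
  simp [act]

theorem third (x y : OnePoint K) : ∃ z : OnePoint K, x ≠ z ∧ y ≠ z := by
  have h01 : ((0 : K) : OnePoint K) ≠ ((1 : K) : OnePoint K) := by
    intro h
    rw [OnePoint.coe_eq_coe] at h
    exact zero_ne_one h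
  have hi0 : (OnePoint.infty : OnePoint K) ≠ ((0 : K) : OnePoint K) := OnePoint.infty_ne_coe _
  have hi1 : (OnePoint.infty : OnePoint K) ≠ ((1 : K) : OnePoint K) := OnePoint.infty_ne_coe _
  by_contra hcon
  push Not at hcon
  have a1 := hcon OnePoint.infty
  have a2 := hcon ((0 : K) : OnePoint K)
  have a3 := hcon ((1 : K) : OnePoint K)
  by_cases b1 : x = OnePoint.infty
  · subst b1
    exact h01 ((a2 hi0).symm.trans (a3 hi1))
  · have c1 := a1 b1
    subst c1
    by_cases b2 : x = ((0 : K) : OnePoint K)
    · subst b2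
      exact hi1 (a3 h01)
    · exact hi0 (a2 b2)

end

theorem goal_PGLX : Goal_PGLX := by
  intro n K _ _ e
  refine ⟨?_, ?_, ?_⟩
  · intro a b c a' b' c' hab hac hbc hab' hac' hbc'
    obtain ⟨g, g1, g2, g3⟩ := base (e.symm a) (e.symm b) (e.symm c) (fun h => hab (e.symm.injective h))
      (fun h => hac (e.symm.injective h)) (fun h => hbc (e.symm.injective h))
    obtain ⟨g', g1', g2', g3'⟩ := base (e.symm a') (e.symm b') (e.symm c')
      (fun h => hab' (e.symm.injective h)) (fun h => hac' (e.symm.injective h))
      (fun h => hbc' (e.symm.injective h))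
    have key : ∀ (x : Fin n) (z : OnePoint K), g • z = e.symm x → act e (g' * g⁻¹) x = e (g' • z) := by
      intro x z hz
      have h := act_apply e (g' * g⁻¹) (e.symm x)
      rw [Equiv.apply_symm_apply] at h
      rw [h, ← hz, mul_smul, inv_smul_smul]
    refine ⟨act e (g' * g⁻¹), ⟨g' * g⁻¹, act_apply e _⟩, ?_, ?_, ?_⟩
    · rw [key a _ g1, g1', Equiv.apply_symm_apply]
    · rw [key b _ g2, g2', Equiv.apply_symm_apply]
    · rw [key c _ g3, g3', Equiv.apply_symm_apply]
  · rintro a b c hab hac hbc γ ⟨h, hγ⟩ ha hb hc
    obtain ⟨g, g1, g2, g3⟩ := base (e.symm a) (e.symm b) (e.symm c) (fun h => hab (e.symm.injective h))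
      (fun h => hac (e.symm.injective h)) (fun h => hbc (e.symm.injective h))
    have hfix : ∀ x : Fin n, γ x = x → h • e.symm x = e.symm x := by
      intro x hx
      have := hγ (e.symm x)
      rw [Equiv.apply_symm_apply, hx] at this
      have h2 := congrArg e.symm this
      rw [Equiv.symm_apply_apply] at h2
      exact h2.symm
    have hk := fix3 (g⁻¹ * h * g)
      (by rw [mul_smul, mul_smul, g1, hfix a ha, ← g1, inv_smul_smul])
      (by rw [mul_smul, mul_smul, g2, hfix b hb, ← g2, inv_smul_smul])
      (by rw [mul_smul, mul_smul, g3, hfix c hc, ← g3, inv_smul_smul])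
    have hid : ∀ w : OnePoint K, h • w = w := by
      intro w
      have := hk (g⁻¹ • w)
      rw [mul_smul, mul_smul, smul_inv_smul] at this
      exact smul_left_cancel _ this
    ext x
    have := hγ (e.symm x)
    rw [Equiv.apply_symm_apply, hid, Equiv.apply_symm_apply] at this
    rw [this]
    rfl
  · rintro a b hab γ ⟨h, hγ⟩ ha hb
    obtain ⟨z, hz1, hz2⟩ := third (e.symm a) (e.symm b)
    obtain ⟨g, g1, g2, g3⟩ := base (e.symm a) (e.symm b) z (fun h => hab (e.symm.injective h)) hz1 hz2
    have hmap : ∀ x y : Fin n, γ x = y → h • e.symm x = e.symm y := by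
      intro x y hx
      have := hγ (e.symm x)
      rw [Equiv.apply_symm_apply, hx] at this
      have h2 := congrArg e.symm this
      rw [Equiv.symm_apply_apply] at h2
      exact h2.symm
    have hk := swap2 (g⁻¹ * h * g)
      (by rw [mul_smul, mul_smul, g1, hmap a b ha, ← g2, inv_smul_smul])
      (by rw [mul_smul, mul_smul, g2, hmap b a hb, ← g1, inv_smul_smul])
    have hid : ∀ w : OnePoint K, h • h • w = w := by
      intro w
      have := hk (g⁻¹ • w)
      simp only [mul_smul, smul_inv_smul] at this
      exact smul_left_cancel _ this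
    ext x
    have h1 := hγ (e.symm x)
    rw [Equiv.apply_symm_apply] at h1
    rw [Equiv.Perm.mul_apply, h1, hγ, hid, Equiv.apply_symm_apply]
    rfl

end Pool.Agent.Helper78.FS
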